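import Pool.Agent.L5helper59.ZT.RDefs

set_option autoImplicit false

open Finset MvPolynomial Filter Topology

namespace Pool.Agent.L5helper59.ZT

open Pool.Agent.L5helper88.Model

theorem rtree_sizes_append {σ : Type} (x : σ → ℝ) {l : List (RatFun ℝ σ)} {s : List ℕ}
    (T : RTree σ l s) : ∃ s'' : List ℕ, T.sizes x = s'' ++ s := by
  induction T with
  | leaf l s answer => exact ⟨[], by simp [RTree.sizes]⟩
  | solve l s n B β y hB hβ hdet hy next ih =>
    obtain ⟨t, ht⟩ := ih
    refine ⟨t ++ [n], ?_⟩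
    simp only [RTree.sizes, ht, List.append_assoc, List.singleton_append]
  | sign l s f hf neg zero pos ihn ihz ihp =>
    simp only [RTree.sizes]
    split_ifs
    · exact ihn
    · exact ihz
    · exact ihp

theorem rtree_local_aux (m : ℕ) (hp : Prime (perm ℝ m)) {l : List (RatFun ℝ (Fin m × Fin m))}
    {s : List ℕ} (T : RTree (Fin m × Fin m) l s) : Systems l s →
    ∃ Q : MvPolynomial (Fin m × Fin m) ℝ, ¬ perm ℝ m ∣ Q ∧ ∀ x0, eval x0 Q ≠ 0 →
      (∃ b : Bool, ∀ᶠ x in 𝓝 x0, T.run x = b) ∨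
      ∃ (s' : List ℕ) (g : MvPolynomial (Fin m × Fin m) ℝ), g ≠ 0 ∧ Solved (g * perm ℝ m) s' ∧
        ∀ᶠ x in 𝓝 x0, ∃ s'' : List ℕ, T.sizes x = s'' ++ s' := by
  have h1 : ¬ perm ℝ m ∣ 1 := fun h => hp.not_isUnit (isUnit_of_dvd_one h)
  induction T with
  | leaf l s answer =>
    intro _
    refine ⟨1, h1, fun x0 _ => Or.inl ⟨answer, Eventually.of_forall fun x => ?_⟩⟩
    simp only [RTree.run]
  | solve l s n B β y hB hβ hdet hy next ih =>
    intro hs
    obtain ⟨Q, hQ, h⟩ := ih (Systems.solve l s n B β y hs hB hβ hdet hy)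
    refine ⟨Q, hQ, fun x0 hx0 => ?_⟩
    simpa only [RTree.run, RTree.sizes] using h x0 hx0
  | sign l s f hf neg zero pos ihn ihz ihp =>
    intro hs
    by_cases hf0 : f = 0
    · obtain ⟨Q, hQ, h⟩ := ihz hs
      refine ⟨Q, hQ, fun x0 hx0 => ?_⟩
      subst hf0
      simpa only [RTree.run, RTree.sizes, map_zero, lt_irrefl, if_false, if_true] using h x0 hx0
    by_cases hd : perm ℝ m ∣ f
    · obtain ⟨g, hg⟩ := hd
      refine ⟨1, h1, fun x0 _ => Or.inr ⟨s, g, ?_, ⟨l, hs, ?_⟩, Eventually.of_forall fun x => ?_⟩⟩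
      · rintro rfl
        exact hf0 (by rw [hg, mul_zero])
      · rw [mul_comm, ← hg]; exact hf
      · exact rtree_sizes_append x _
    · obtain ⟨Qn, hQn, hn⟩ := ihn hs
      obtain ⟨Qp, hQp, hpos⟩ := ihp hs
      refine ⟨f * Qn * Qp, ?_, fun x0 hx0 => ?_⟩
      · intro h
        rcases hp.dvd_or_dvd h with h | h
        · rcases hp.dvd_or_dvd h with h | h
          · exact hd h
          · exact hQn h
        · exact hQp h
      rw [map_mul, map_mul] at hx0
      have hfx : eval x0 f ≠ 0 := fun h => hx0 (by rw [h, zero_mul, zero_mul])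
      have hnx : eval x0 Qn ≠ 0 := fun h => hx0 (by rw [h, mul_zero, zero_mul])
      have hpx : eval x0 Qp ≠ 0 := fun h => hx0 (by rw [h, mul_zero])
      have hcont : Continuous fun x : Fin m × Fin m → ℝ => eval x f := MvPolynomial.continuous_eval f
      rcases lt_or_gt_of_ne hfx with hlt | hgt
      · have hev : ∀ᶠ x in 𝓝 x0, eval x f < 0 := hcont.continuousAt.eventually (gt_mem_nhds hlt)
        rcases hn x0 hnx with ⟨b, hb⟩ | ⟨s', g, hg0, hg, hev'⟩
        · refine Or.inl ⟨b, ?_⟩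
          filter_upwards [hev, hb] with x hx hbx
          simp only [RTree.run, hx, if_true]
          exact hbx
        · refine Or.inr ⟨s', g, hg0, hg, ?_⟩
          filter_upwards [hev, hev'] with x hx hbx
          simp only [RTree.sizes, hx, if_true]
          exact hbx
      · have hev : ∀ᶠ x in 𝓝 x0, 0 < eval x f := hcont.continuousAt.eventually (lt_mem_nhds hgt)
        rcases hpos x0 hpx with ⟨b, hb⟩ | ⟨s', g, hg0, hg, hev'⟩
        · refine Or.inl ⟨b, ?_⟩
          filter_upwards [hev, hb] with x hx hbx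
          simp only [RTree.run, not_lt.2 hx.le, hx.ne', if_false]
          exact hbx
        · refine Or.inr ⟨s', g, hg0, hg, ?_⟩
          filter_upwards [hev, hev'] with x hx hbx
          simp only [RTree.sizes, not_lt.2 hx.le, hx.ne', if_false]
          exact hbx

/-- T2 (hypothesis `hp` instead of T1) -/
theorem rtree_local (m : ℕ) (hp : Prime (perm ℝ m)) (T : RTree (Fin m × Fin m) [] []) :
    ∃ Q : MvPolynomial (Fin m × Fin m) ℝ, ¬ perm ℝ m ∣ Q ∧ ∀ x0, eval x0 Q ≠ 0 →
      (∃ b : Bool, ∀ᶠ x in 𝓝 x0, T.run x = b) ∨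
      ∃ (s' : List ℕ) (g : MvPolynomial (Fin m × Fin m) ℝ), g ≠ 0 ∧ Solved (g * perm ℝ m) s' ∧
        ∀ᶠ x in 𝓝 x0, ∃ s'' : List ℕ, T.sizes x = s'' ++ s' :=
  rtree_local_aux m hp T Systems.nil

end Pool.Agent.L5helper59.ZT
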